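import Pool.Agent.Q103.EC.Stm2
import Pool.Agent.Y221.AP.Inf

/-!
# Maps over the field of meromorphic functions with many preperiodic points

(B6) `S_mer` of `Pool.Agent.Q103.EC.Stm2`.
-/

set_option autoImplicit false

namespace Pool.Agent.Q38.EC

open Finset Polynomial FF
open Pool.Agent.W602.GT
open Pool.Agent.Q41.SU
open Pool.Agent.Q41.GT
open Pool.Agent.Q103.EC
open Pool.Agent.Y221.AP (MK MDer Om MInf MI)

section

variable {k K : Type} [Field k] [Field K] [Algebra k K]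

theorem crs_finite (P : Finset K) : (crs P).Finite := by
  classical
  have h : crs P ⊆ (fun t : (K × K) × (K × K) =>
      ((t.2.2 - t.1.1) * (t.1.2 - t.2.1)) / ((t.2.2 - t.2.1) * (t.1.2 - t.1.1))) ''
      (((P ×ˢ P) ×ˢ (P ×ˢ P) : Finset ((K × K) × (K × K))) : Set ((K × K) × (K × K))) := by
    rintro c ⟨x0, h0, x1, h1, x2, h2, x, hx, -, -, -, -, -, rfl⟩
    refine ⟨((x0, x1), (x2, x)), ?_, rfl⟩
    rw [Finset.mem_coe, Finset.mem_product, Finset.mem_product, Finset.mem_product]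
    exact ⟨⟨h0, h1⟩, h2, hx⟩
  exact ((Finset.finite_toSet _).image _).subset h

theorem crs_ne {P : Finset K} {c : K} (hc : c ∈ crs P) : c ≠ 0 := by
  obtain ⟨x0, h0, x1, h1, x2, h2, x, hx, h01, h02, h12, hx2, hx0, rfl⟩ := hc
  exact div_ne_zero (mul_ne_zero (sub_ne_zero.2 hx0) (sub_ne_zero.2 h12))
    (mul_ne_zero (sub_ne_zero.2 hx2) (sub_ne_zero.2 h01.symm))

theorem lgs_mem (D : Derivation k K K) {P : Finset K} {s : K} (hs : s ∈ lgs P D) :
    s = 0 ∨ ∃ c ∈ crs P, s = D c / c := by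
  obtain ⟨i, hi, j, hj, l, hl, m, hm, hij, hlm, him, hlj, rfl⟩ := hs
  by_cases hjm : j = m
  · left
    subst hjm
    unfold lgd
    ring
  right
  refine ⟨((i - j) * (l - m)) / ((i - m) * (l - j)),
    ⟨j, hj, l, hl, m, hm, i, hi, hlj.symm, hjm, hlm, him, hij, rfl⟩, ?_⟩
  have a1 : i - j ≠ 0 := sub_ne_zero.2 hij
  have a2 : l - m ≠ 0 := sub_ne_zero.2 hlm
  have a3 : i - m ≠ 0 := sub_ne_zero.2 him
  have a4 : l - j ≠ 0 := sub_ne_zero.2 hlj
  have e : D (((i - j) * (l - m)) / ((i - m) * (l - j))) =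
      (((i - m) * (l - j)) ^ 2)⁻¹ * (((i - m) * (l - j)) * ((i - j) * (D l - D m) +
        (l - m) * (D i - D j)) - ((i - j) * (l - m)) * ((i - m) * (D l - D j) +
        (l - j) * (D i - D m))) := by
    rw [D.leibniz_div, D.leibniz, D.leibniz]
    simp only [smul_eq_mul, map_sub, inv_pow]
  rw [e]
  unfold lgd slp
  field_simp
  ring

theorem isInt_mono {A B : Subalgebra k K} (h : A ≤ B) {x : K} (hx : IsIntegral A x) :
    IsIntegral B x := by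
  obtain ⟨f, hf, he⟩ := hx
  refine ⟨f.map (Subalgebra.inclusion h).toRingHom, hf.map _, ?_⟩
  rw [Polynomial.eval₂_map]
  exact he

theorem isAlg_mono {A B : IntermediateField k K} (h : A ≤ B) {x : K} (hx : IsAlgebraic A x) :
    IsAlgebraic B x := by
  obtain ⟨f, hf, he⟩ := hx
  refine ⟨f.map (IntermediateField.inclusion h).toRingHom, ?_, ?_⟩
  · rw [Ne, Polynomial.map_eq_zero]
    exact hf
  · rw [Polynomial.aeval_def, Polynomial.eval₂_map]
    exact he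

theorem pprod_ne {J : Type} [Fintype J] [DecidableEq J] {g : K → K → K} {x : J → K}
    (h : ∀ l j, l ≠ j → g (x l) (x j) ≠ 0) : pprod g x ≠ 0 := by
  unfold pprod
  rw [Finset.prod_ne_zero_iff]
  intro l _
  rw [Finset.prod_ne_zero_iff]
  intro j hj
  exact h l j (Finset.ne_of_mem_erase hj).symm

theorem GG_ne {E₀ d : ℕ} {α : K → K} {p q : K[X]} {P : Finset K}
    (h : ∀ z ∈ P, ∀ z' ∈ P, z ≠ z' → gfn E₀ d α p q z z' ≠ 0) : Pool.Agent.Q103.EC.GG E₀ d α p q P ≠ 0 := by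
  classical
  unfold Pool.Agent.Q103.EC.GG
  rw [Finset.prod_ne_zero_iff]
  intro z hz
  rw [Finset.prod_ne_zero_iff]
  intro z' hz'
  exact h z hz z' (Finset.mem_of_mem_erase hz') (Finset.ne_of_mem_erase hz').symm

theorem PhiY_ne {a b : ℕ} {φ : II a b → ℕ × ℕ} {E₀ d : ℕ} {α : K → K} {p q : K[X]}
    {x : II a b → K} {y : K → K} (hx : Function.Injective x)
    (hw : wro φ x (fun l => y (x l)) ≠ 0)
    (h : ∀ l j, l ≠ j → gfn E₀ d α p q (x l) (x j) ≠ 0) : PhiY φ E₀ d α p q x y ≠ 0 := by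
  unfold PhiY
  refine div_ne_zero (mul_ne_zero (pow_ne_zero _ hw) (pow_ne_zero _ (pprod_ne h)))
    (pow_ne_zero _ (pprod_ne fun l j hlj => sub_ne_zero.2 fun e => hlj (hx e)))

end

/-- **(B6)** -/
theorem t_mer (h1 : S_intg) (h2 : S_ana) (h3 : S_plc) (h4 : S_crp) (h5 : S_ndr) (h6 : S_red.{0})
    (h7 : S_crc.{0}) (h8 : S_alp) (h9 : S_gfn) : S_mer := by
  classical
  intro d hd
  obtain ⟨a, b, φ, hb, hab, ha, hφ, hcst, hI⟩ := h1 d hd
  obtain ⟨N₀, hN₀⟩ := h5 d a b φ hφ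
  obtain ⟨N'', hN''⟩ := h6 d (max N₀ (3 * d + 4)) (by omega)
  refine ⟨N'', fun p q hp hq hco P hP hcard c hc => ?_⟩
  by_cases hiso : Pool.Agent.W277.UH.ConjConst ℂ p q d
  · obtain ⟨x0, hx0, x1, hx1, x2, hx2, x, hx, h01, h02, h12, hxx2, hxx0, rfl⟩ := hc
    obtain ⟨k, hk⟩ := h7 ℂ MK d p q hd hp hq.le (by rw [hq]; exact max_eq_right hp) hco hiso P hP
      x0 hx0 x1 hx1 x2 hx2 x hx h01 h02 h12 hxx2 hxx0
    rw [← hk]
    exact Pool.Agent.Y221.AP.minf_const k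
  obtain ⟨P', hP'P, hP', hcard', hsur⟩ := hN'' MK p q hp hq hco P hP hcard
  have hndh : NDH ℂ MDer d p q P' :=
    { hker := fun x hx => Pool.Agent.Y221.AP.MD_zero hx
      hd := hd
      hp := hp
      hq := hq
      hco := hco
      hP := hP'
      hS := hsur
      hiso := hiso }
  obtain ⟨x, hxinj, hxP, hxw⟩ := hN₀ ℂ MK MDer p q P' hndh ((le_max_left _ _).trans hcard')
  obtain ⟨E₀, hE₀, hα⟩ := h8 d hd P'.card
  obtain ⟨α, hα0, hαe⟩ := hα MK p q P' hP' rfl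
  obtain ⟨C', hC', hI2⟩ := hI P'.card E₀ hE₀
  have hI3 := hI2 ℂ MK p q hp hq hco P' hP' rfl α hα0 hαe (fun z => MDer z) x hxinj hxP
  -- the functions are not zero
  obtain ⟨z₀, hz₀⟩ : ∃ z : ℂ, z ∈ Om := by
    obtain ⟨z, hz⟩ := (Pool.Agent.Y221.AP.cod_Om).exists
    exact ⟨z, hz⟩
  obtain ⟨v₀, -, -⟩ := h3 z₀ hz₀
  have hg : ∀ z ∈ P', ∀ z' ∈ P', z ≠ z' → gfn E₀ d α p q z z' ≠ 0 := fun z hz z' hz' hzz =>
    ((h9 ℂ MK v₀ E₀ d hE₀ hd p q hp hq hco P' hP' α hα0 hαe).2 z hz z' hz' hzz).1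
  set Ψ : MK := PhiY φ E₀ d α p q x (fun z => MDer z) with hΨ
  have hΨ0 : Ψ ≠ 0 := PhiY_ne hxinj hxw fun l j hlj =>
    hg _ (hxP l) _ (hxP j) fun e => hlj (hxinj e)
  have hGG0 : Pool.Agent.Q103.EC.GG E₀ d α p q P' ≠ 0 := GG_ne hg
  have hF0 : Ψ ^ C' * Pool.Agent.Q103.EC.GG E₀ d α p q P' ≠ 0 := mul_ne_zero (pow_ne_zero _ hΨ0) hGG0
  -- the list
  obtain ⟨S, hS⟩ : ∃ S : Finset MK, ∀ c, c ∈ S ↔ c ∈ crs P' :=
    ⟨(crs_finite P').toFinset, fun c => (crs_finite P').mem_toFinset⟩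
  obtain ⟨N, e, -⟩ : ∃ (N : ℕ) (_ : Fin N ≃ S), True := ⟨S.card, S.equivFin.symm, trivial⟩
  obtain ⟨u, hu0, hus⟩ : ∃ u : Fin (N + 1) → MK, u 0 = 1 ∧ ∀ i : Fin N, u i.succ = (e i : MK) :=
    ⟨Fin.cons 1 (fun i => (e i : MK)), rfl, fun i => rfl⟩
  have hui : ∀ i, u i = 1 ∨ u i ∈ crs P' := by
    intro i
    refine Fin.cases (Or.inl hu0) (fun j => ?_) i
    right
    rw [hus]
    exact (hS _).1 (e j).2
  have hsurj : ∀ c ∈ crs P', ∃ i, u i = c := by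
    intro c hc
    refine ⟨(e.symm ⟨c, (hS c).2 hc⟩).succ, ?_⟩
    rw [hus, Equiv.apply_symm_apply]
  have hne : ∀ i, u i ≠ 0 := by
    intro i
    rcases hui i with h | h
    · rw [h]
      exact one_ne_zero
    · exact crs_ne h
  have hF : ∀ i, ∃ h ∈ hfs E₀ d α p q P', Ψ ^ C' * Pool.Agent.Q103.EC.GG E₀ d α p q P' * u i = Ψ ^ C' * h := by
    intro i
    rcases hui i with h | h
    · refine ⟨Pool.Agent.Q103.EC.GG E₀ d α p q P', Or.inl rfl, ?_⟩
      rw [h, mul_one]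
    · refine ⟨u i * Pool.Agent.Q103.EC.GG E₀ d α p q P', Or.inr ⟨u i, h, rfl⟩, ?_⟩
      ring
  have hle : Algebra.adjoin ℂ (lgs P' (fun z => MDer z)) ≤
      Algebra.adjoin ℂ (Set.range fun j => MDer (u j) / u j) := by
    refine Algebra.adjoin_le fun s hs => ?_
    rcases lgs_mem MDer hs with h | ⟨c, hc, h⟩
    · rw [h]
      exact Subalgebra.zero_mem _
    · obtain ⟨i, hi⟩ := hsurj c hc
      refine Algebra.subset_adjoin ⟨i, ?_⟩
      show MDer (u i) / u i = s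
      rw [hi, h]
  have hmi : ∀ i, MInf (u i) := by
    refine h2 N u hu0 hne (Ψ ^ C' * Pool.Agent.Q103.EC.GG E₀ d α p q P') hF0 ?_ ?_
    · intro i z hz
      obtain ⟨v, hv1, hv2⟩ := h3 z hz
      obtain ⟨h, hh, e1⟩ := hF i
      rw [e1, ← hv1]
      exact (hI3 h hh).2 v MDer hv2 fun _ _ => rfl
    · intro i
      obtain ⟨h, hh, e1⟩ := hF i
      rw [e1]
      exact isInt_mono hle (hI3 h hh).1
  have hle2 : IntermediateField.adjoin ℂ (crs P') ≤ MI := by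
    rw [IntermediateField.adjoin_le_iff]
    intro c hc
    obtain ⟨i, hi⟩ := hsurj c hc
    rw [← hi]
    exact hmi i
  have halg := h4 ℂ MK d p q hd hp hq hco P P' hP'P hP hP' ((le_max_right _ _).trans hcard') c hc
  exact Pool.Agent.Y221.AP.minf_of_alg (isAlg_mono hle2 halg)

end Pool.Agent.Q38.EC
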